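import Pool.Agent.Q283.EN.Stm3
import Pool.Agent.Q14.LK.Bas

/-!
# EN-QPOW: the number of the classes is a power of `2`
-/

set_option autoImplicit false

namespace Pool.Agent.Q26.EN

open NumberField IsDedekindDomain Finset
open Pool.Agent.Q283.EN
open Pool.Agent.Q7.LK
open Pool.Agent.Q283.LQ (Sm)
open Pool.Agent.Q14.LK (mon_ne mon_zero mon_add)

section

variable {F : Type} [Field F] [NumberField F]

/-- a nonzero number is a unit at almost all primes -/
theorem fin_val' {c : F} (hc : c ≠ 0) : {v : HeightOneSpectrum (𝓞 F) | v.valuation F c ≠ 1}.Finite := by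
  have h1 := HeightOneSpectrum.Support.finite (𝓞 F) c
  have h2 := HeightOneSpectrum.Support.finite (𝓞 F) c⁻¹
  refine (h1.union h2).subset ?_
  intro v hv
  have hv0 : v.valuation F c ≠ 0 := (Valuation.ne_zero_iff _).2 hc
  rcases lt_or_gt_of_ne hv with h | h
  · right
    change 1 < v.valuation F c⁻¹
    rw [map_inv₀]
    exact (one_lt_inv₀ (zero_lt_iff.2 hv0)).2 h
  · left
    exact h

/-- every place lies above a rational prime -/
theorem exists_sm (v : HeightOneSpectrum (𝓞 F)) : ∃ y1 : ℕ, ∀ y, y1 ≤ y → Sm y v := by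
  classical
  have h1 : ∃ N : ℕ, 1 ≤ N ∧ (N : 𝓞 F) ∈ v.asIdeal := by
    refine ⟨Ideal.absNorm v.asIdeal, ?_, Ideal.absNorm_mem _⟩
    rw [Nat.one_le_iff_ne_zero]
    intro h
    exact v.ne_bot (Ideal.absNorm_eq_zero_iff.1 h)
  obtain ⟨hN1, hN2⟩ := Nat.find_spec h1
  have hmin := fun m (hm : m < Nat.find h1) => Nat.find_min h1 hm
  set N := Nat.find h1 with hN
  have hN0 : N ≠ 1 := by
    intro h
    rw [h, Nat.cast_one] at hN2
    exact v.isPrime.ne_top ((Ideal.eq_top_iff_one _).2 hN2)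
  have hp := Nat.minFac_prime hN0
  refine ⟨N.minFac, fun y hy => ⟨N.minFac, hp, hy, ?_⟩⟩
  have h2 : N.minFac * (N / N.minFac) = N := Nat.mul_div_cancel' N.minFac_dvd
  have h3 : ((N.minFac : ℕ) : 𝓞 F) * ((N / N.minFac : ℕ) : 𝓞 F) ∈ v.asIdeal := by
    rw [← Nat.cast_mul, h2]
    exact hN2
  rcases v.isPrime.mem_or_mem h3 with h | h
  · exact h
  · exfalso
    have h4 : 1 ≤ N / N.minFac := Nat.div_pos (Nat.minFac_le hN1) hp.pos
    exact hmin _ (Nat.div_lt_self hN1 hp.one_lt) ⟨h4, h⟩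

theorem exists_sm_finite {S : Set (HeightOneSpectrum (𝓞 F))} (hS : S.Finite) :
    ∃ y1 : ℕ, ∀ y, y1 ≤ y → ∀ v ∈ S, Sm y v := by
  classical
  choose N hN using fun v : HeightOneSpectrum (𝓞 F) => exists_sm v
  refine ⟨hS.toFinset.sup N, fun y hy v hv => hN v y ?_⟩
  exact (Finset.le_sup (f := N) (hS.mem_toFinset.2 hv)).trans hy

/-- there are places -/
theorem exists_place (F : Type) [Field F] [NumberField F] : Nonempty (HeightOneSpectrum (𝓞 F)) := by
  obtain ⟨M, hM⟩ := Ideal.exists_maximal (𝓞 F)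
  exact ⟨⟨M, hM.isPrime, Ring.ne_bot_of_isMaximal_of_not_isField hM (RingOfIntegers.not_isField F)⟩⟩

omit [NumberField F] in
/-- abstract form: a property of elements, stable under products and squares, depending on exponents -/
theorem hasN_of_group (P : F → Prop) {f : ℕ} {u : Fin f → F} (hu : ∀ l, u l ≠ 0) (hne : ∀ a, P a → a ≠ 0)
    (hone : P 1) (hmul : ∀ a b, P a → P b → P (a * b)) (hsq : ∀ a s, P a → s ≠ 0 → P (a * s ^ 2))
    (ind : ∀ c : Fin f → ZMod 2, IsPow 2 (mon u c) → c = 0)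
    (full : ∀ a, P a → ∃ c : Fin f → ZMod 2, IsPow 2 (a * mon u c)) {D : F} (hD : P D) (hD2 : ¬ IsPow 2 D) :
    ∃ r : ℕ, HasN 2 P (2 ^ (r + 1)) := by
  classical
  -- the subspace
  have hadd : ∀ c c' : Fin f → ZMod 2, P (mon u c) → P (mon u c') → P (mon u (c + c')) := by
    intro c c' h h'
    obtain ⟨x, hx, he⟩ := mon_add hu c c'
    have h1 := hsq _ x⁻¹ (hmul _ _ h h') (inv_ne_zero hx)
    rw [he, mul_assoc, ← mul_pow, mul_inv_cancel₀ hx, one_pow, mul_one] at h1
    exact h1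
  have hzero : P (mon u (0 : Fin f → ZMod 2)) := by
    rw [mon_zero]
    exact hone
  let W : Submodule (ZMod 2) (Fin f → ZMod 2) :=
    { carrier := {c | P (mon u c)}
      add_mem' := fun {c c'} h h' => hadd c c' h h'
      zero_mem' := hzero
      smul_mem' := by
        intro a c h
        have ha : a = 0 ∨ a = 1 := by
          revert a
          decide
        rcases ha with rfl | rfl
        · rw [zero_smul]
          exact hzero
        · rw [one_smul]
          exact h }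
  have hW : ∀ c, c ∈ W ↔ P (mon u c) := fun c => Iff.rfl
  -- for every element of the property the class
  have hcl : ∀ b, P b → ∃ c ∈ W, IsPow 2 (b / mon u c) := by
    intro b hb
    obtain ⟨c, s, hs⟩ := full b hb
    have hb0 := hne b hb
    have hm := mon_ne hu c
    have hs0 : s ≠ 0 := by
      rintro rfl
      rw [zero_pow two_ne_zero] at hs
      exact mul_ne_zero hb0 hm hs
    refine ⟨c, ?_, b / s, ?_⟩
    · rw [hW]
      have h1 := hsq b (s / b) hb (div_ne_zero hs0 hb0)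
      have h2 : b * (s / b) ^ 2 = mon u c := by
        rw [div_pow, ← hs]
        field_simp
      rwa [h2] at h1
    · rw [div_pow, ← hs]
      field_simp
  have hcard : Nat.card W = 2 ^ Module.finrank (ZMod 2) W := by
    rw [Module.natCard_eq_pow_finrank (K := ZMod 2), Nat.card_zmod]
  have hpos : Module.finrank (ZMod 2) W ≠ 0 := by
    intro h0
    have h1 : W = ⊥ := Submodule.finrank_eq_zero.1 h0
    obtain ⟨c, hc, s, hs⟩ := hcl D hD
    rw [h1, Submodule.mem_bot] at hc
    rw [hc, mon_zero, div_one] at hs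
    exact hD2 ⟨s, hs⟩
  obtain ⟨r, hr⟩ := Nat.exists_eq_succ_of_ne_zero hpos
  refine ⟨r, ?_⟩
  have hfin : Finite W := inferInstance
  have hcard2 : Nat.card W = 2 ^ (r + 1) := by rw [hcard, hr]
  let e : Fin (2 ^ (r + 1)) ≃ W := (finCongr hcard2.symm).trans (Finite.equivFin W).symm
  refine ⟨fun i => mon u (e i).1, fun i => (e i).2, fun i j hij hp => ?_, fun b hb => ?_⟩
  · apply hij
    apply e.injective
    apply Subtype.ext
    obtain ⟨s, hs⟩ := hp
    have hmi := mon_ne hu (e i).1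
    have hmj := mon_ne hu (e j).1
    obtain ⟨x, hx, he⟩ := mon_add hu (e i).1 (e j).1
    have h1 := ind ((e i).1 + (e j).1) ⟨s * mon u (e j).1 / x, by
      have h2 : mon u ((e i).1 + (e j).1) = mon u (e i).1 * mon u (e j).1 / x ^ 2 := by
        rw [he]
        field_simp
      rw [h2, div_pow, mul_pow, ← hs]
      field_simp⟩
    have h3 : ∀ a b : ZMod 2, a + b = 0 → a = b := by decide
    exact funext fun l => h3 _ _ (congrFun h1 l)
  · obtain ⟨c, hc, hp⟩ := hcl b hb
    refine ⟨e.symm ⟨c, hc⟩, ?_⟩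
    show IsPow 2 (b / mon u (e (e.symm ⟨c, hc⟩)).1)
    rw [e.apply_symm_apply]
    exact hp

end

theorem qpow (hBAS : Pool.Agent.Q7.LK.S_BAS) (hBASE2 : Pool.Agent.Q283.EN.S_BASE2)
    (hQLOC : Pool.Agent.Q283.EN.S_QLOC) (hQCX : Pool.Agent.Q283.EN.S_QCX) : Pool.Agent.Q283.EN.S_QPOW := by
  intro F _ _ i D hi hD hD2
  have hζ : IsPrimitiveRoot (-1 : F) 2 := by
    refine IsPrimitiveRoot.mk_of_lt _ (by norm_num) (by norm_num) ?_
    intro l hl0 hl2
    have hl : l = 1 := by omega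
    rw [hl, pow_one]
    intro h
    have h2 : (2 : F) = 0 := by linear_combination -h
    exact two_ne_zero h2
  obtain ⟨y0, hy0⟩ := hBASE2 F i (-1) hi hζ
  obtain ⟨y1, hy1⟩ := exists_sm_finite (fin_val' hD)
  obtain ⟨f, u, r, π, g, hB, -⟩ := hy0 (max y0 y1) (le_max_left _ _)
  have hsm := hy1 (max y0 y1) (le_max_right _ _)
  have hne : ∀ a : F, (∀ v : HeightOneSpectrum (𝓞 F), AQ v D a) → a ≠ 0 := by
    intro a ha
    obtain ⟨v⟩ := exists_place F
    exact (ha v).1
  refine hasN_of_group (fun a : F => ∀ v : HeightOneSpectrum (𝓞 F), AQ v D a) hB.ue hne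
    (fun v => (hQLOC F i hi v D hD).2.2.2.2) (fun a b ha hb v => (hQLOC F i hi v D hD).2.2.2.1 a b (ha v) (hb v))
    (fun a s ha hs v => (hQLOC F i hi v D hD).1 a (s ^ 2) (ha v) ((hBAS 2 F v).2.2.1 s hs)) hB.ind
    (fun a ha => hB.full a (hne a ha) fun v hv => ?_) (D := D)
    (fun v => ?_) hD2
  · have h1 : ¬ Dp 2 v := fun h => hv ⟨2, Nat.prime_two, hB.two, h⟩
    have h2 : v.valuation F D = 1 := by
      by_contra h3
      exact hv (hsm v h3)
    have h3 : Q4 v D := ⟨1, by rw [one_pow, mul_one]; exact h2⟩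
    exact ((hQCX F i (-1) hi hζ v D a h1 hD (hne a ha)).1 h3).1 (ha v)
  · have h1 := (hQLOC F i hi v D hD).2.2.1 1 (hQLOC F i hi v D hD).2.2.2.2
    rwa [one_mul] at h1

end Pool.Agent.Q26.EN
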