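import Pool.Agent.Q283.EN.Stm2

/-!
# EN-LIX: the local index, short equations
-/

set_option autoImplicit false

namespace Pool.Agent.Q26.EN

open NumberField IsDedekindDomain Finset WeierstrassCurve
open Pool.Agent.Q283.EN
open Pool.Agent.TH841.SH.D (Pt)

section

variable {F : Type} [Field F] [NumberField F]

/-- the valuation of numbers -/
theorem vmap (v : HeightOneSpectrum (𝓞 F)) (k : F) :
    Valued.v (algebraMap F (v.adicCompletion F) k) = v.valuation F k :=
  HeightOneSpectrum.valuedAdicCompletion_eq_valuation' v k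

theorem vint (v : HeightOneSpectrum (𝓞 F)) (r : 𝓞 F) :
    Valued.v (algebraMap F (v.adicCompletion F) (algebraMap (𝓞 F) F r)) = v.intValuation r := by
  rw [vmap, HeightOneSpectrum.valuation_of_algebraMap]

theorem val_int (v : HeightOneSpectrum (𝓞 F)) {A : F} (hA : IsIntegral ℤ A) : v.valuation F A ≤ 1 := by
  have h := v.valuation_le_one (K := F) (⟨A, hA⟩ : 𝓞 F)
  exact h

theorem delta_ne {A B : F} (h : 4 * A ^ 3 + 27 * B ^ 2 ≠ 0) (v : HeightOneSpectrum (𝓞 F)) :
    ((sh A B).baseChange (v.adicCompletion F)).Δ ≠ 0 := by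
  have h1 : ((sh A B).baseChange (v.adicCompletion F)).Δ = algebraMap F (v.adicCompletion F) (sh A B).Δ :=
    WeierstrassCurve.map_Δ _ _
  have h2 : (sh A B).Δ = -16 * (4 * A ^ 3 + 27 * B ^ 2) := by
    simp only [sh, WeierstrassCurve.Δ, WeierstrassCurve.b₂, WeierstrassCurve.b₄, WeierstrassCurve.b₆,
      WeierstrassCurve.b₈]
    ring
  rw [h1, h2]
  intro h0
  have h3 := (map_eq_zero (algebraMap F (v.adicCompletion F))).1 h0
  rcases mul_eq_zero.1 h3 with h4 | h4
  · exact absurd h4 (by norm_num)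
  · exact h h4

theorem nons {A B : F} (hd : 4 * A ^ 3 + 27 * B ^ 2 ≠ 0) (v : HeightOneSpectrum (𝓞 F)) {x y : v.adicCompletion F}
    (he : y ^ 2 = x ^ 3 + algebraMap F (v.adicCompletion F) A * x + algebraMap F (v.adicCompletion F) B) :
    ((sh A B).baseChange (v.adicCompletion F)).toAffine.Nonsingular x y := by
  refine (Affine.equation_iff_nonsingular_of_Δ_ne_zero (delta_ne hd v)).1 ?_
  rw [Affine.equation_iff]
  show y ^ 2 + algebraMap F (v.adicCompletion F) 0 * x * y + algebraMap F (v.adicCompletion F) 0 * y =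
    x ^ 3 + algebraMap F (v.adicCompletion F) 0 * x ^ 2 + algebraMap F (v.adicCompletion F) A * x +
      algebraMap F (v.adicCompletion F) B
  rw [map_zero, he]
  ring

/-- representatives -/
theorem reps (v : HeightOneSpectrum (𝓞 F)) (n e : ℕ) :
    ∃ Z : Finset (v.adicCompletion F), Z.card = Ideal.absNorm v.asIdeal ^ e ∧
      (∀ z ∈ Z, z ≠ 0 ∧ Valued.v z ≤ WithZero.exp (-(n : ℤ))) ∧
      ∀ z ∈ Z, ∀ z' ∈ Z, z ≠ z' → ¬ Valued.v (z - z') ≤ WithZero.exp (-((n + e : ℕ) : ℤ)) := by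
  classical
  set I : Ideal (𝓞 F) := v.asIdeal ^ e with hI
  have hI0 : I ≠ ⊥ := pow_ne_zero e v.ne_bot
  have hfin : Finite (𝓞 F ⧸ I) := Ideal.finiteQuotientOfFreeOfNeBot I hI0
  have := Fintype.ofFinite (𝓞 F ⧸ I)
  have hr : ∀ c : 𝓞 F ⧸ I, ∃ r : 𝓞 F, r ≠ 0 ∧ Ideal.Quotient.mk I r = c := by
    intro c
    obtain ⟨a, ha⟩ := Ideal.Quotient.mk_surjective c
    by_cases h0 : a = 0
    · obtain ⟨b, hb, hb0⟩ := Submodule.exists_mem_ne_zero_of_ne_bot hI0
      refine ⟨b, hb0, ?_⟩
      rw [← ha, h0, map_zero]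
      exact Ideal.Quotient.eq_zero_iff_mem.2 hb
    · exact ⟨a, h0, ha⟩
  choose r hr0 hr using hr
  obtain ⟨π, hπ⟩ := v.intValuation_exists_uniformizer
  have hπ0 : π ≠ 0 := by
    rintro rfl
    rw [map_zero] at hπ
    exact WithZero.exp_ne_zero hπ.symm
  have hπn : v.intValuation (π ^ n) = WithZero.exp (-(n : ℤ)) := by
    rw [map_pow, hπ, ← WithZero.exp_nsmul]
    congr 1
    simp
  set z : 𝓞 F ⧸ I → v.adicCompletion F := fun c =>
    algebraMap F (v.adicCompletion F) (algebraMap (𝓞 F) F (π ^ n * r c)) with hz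
  have hzz : ∀ c c', c ≠ c' → ¬ Valued.v (z c - z c') ≤ WithZero.exp (-((n + e : ℕ) : ℤ)) := by
    intro c c' hne hle
    have h1 : z c - z c' = algebraMap F (v.adicCompletion F) (algebraMap (𝓞 F) F (π ^ n * (r c - r c'))) := by
      rw [hz]
      simp only
      rw [mul_sub, map_sub, map_sub]
    rw [h1, vint, map_mul, hπn] at hle
    have h2 : WithZero.exp (-((n + e : ℕ) : ℤ)) = WithZero.exp (-(n : ℤ)) * WithZero.exp (-(e : ℤ)) := by
      rw [← WithZero.exp_add]
      congr 1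
      push_cast
      ring
    rw [h2] at hle
    have h3 : v.intValuation (r c - r c') ≤ WithZero.exp (-(e : ℤ)) :=
      (mul_le_mul_iff_right₀ (WithZero.exp_pos)).1 hle
    rw [v.intValuation_le_pow_iff_mem] at h3
    apply hne
    rw [← hr c, ← hr c']
    exact Ideal.Quotient.eq.2 h3
  have hinj : Function.Injective z := by
    intro c c' h
    by_contra hne
    apply hzz c c' hne
    rw [h, sub_self, map_zero]
    exact zero_le
  refine ⟨univ.image z, ?_, ?_, ?_⟩
  · rw [card_image_of_injective _ hinj, card_univ, ← Nat.card_eq_fintype_card, ← map_pow, Ideal.absNorm_apply,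
      Submodule.cardQuot_apply]
  · intro x hx
    obtain ⟨c, -, rfl⟩ := mem_image.1 hx
    refine ⟨?_, ?_⟩
    · intro h0
      have h1 := (map_eq_zero (algebraMap F (v.adicCompletion F))).1 h0
      have h2 := (map_eq_zero_iff (algebraMap (𝓞 F) F) (IsFractionRing.injective (𝓞 F) F)).1 h1
      rcases mul_eq_zero.1 h2 with h3 | h3
      · exact pow_ne_zero n hπ0 h3
      · exact hr0 c h3
    · rw [hz]
      simp only
      rw [vint, map_mul, hπn]
      exact mul_le_of_le_one_right' (v.intValuation_le_one _)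
  · intro x hx x' hx' hne
    obtain ⟨c, -, rfl⟩ := mem_image.1 hx
    obtain ⟨c', -, rfl⟩ := mem_image.1 hx'
    exact hzz c c' fun h => hne (by rw [h])

/-- points different from the origin are not in small neighbourhoods -/
theorem out_of (v : HeightOneSpectrum (𝓞 F)) (W : WeierstrassCurve F) (P : Pt W (v.adicCompletion F)) (hP : P ≠ 0) :
    ∃ m : ℕ, ∀ n, m ≤ n → ¬ Hn v W n P := by
  rcases P with _ | ⟨x, y, h⟩
  · exact absurd rfl hP
  · by_cases h0 : Valued.v x = 0
    · refine ⟨0, fun n _ hn => ?_⟩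
      have h1 := hn x y h rfl
      rw [h0] at h1
      exact absurd h1 (not_le.2 WithZero.exp_pos)
    · refine ⟨(WithZero.log (Valued.v x)).toNat + 1, fun n hm hn => ?_⟩
      have h1 := hn x y h rfl
      rw [← WithZero.exp_log h0, WithZero.exp_le_exp] at h1
      omega

end

theorem lix (hLPT : Pool.Agent.Q283.EN.S_LPT) (hLNA : Pool.Agent.Q283.EN.S_LNA) (hABS : Pool.Agent.Q283.EN.S_ABS) :
    Pool.Agent.Q283.EN.S_LIX := by
  classical
  intro F _ _ v A B hA hB hd θ e n0 hθ K0 hK0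
  obtain ⟨hadd, hneg, hfin, hdist⟩ := hLNA F v A B hA hB hd
  -- the number n
  obtain ⟨n, hn1, hn0, hnK⟩ : ∃ n : ℕ, 1 ≤ n ∧ n0 ≤ 2 * n ∧
      ∀ P ∈ K0, ∀ Q ∈ K0, P ≠ Q → ¬ Hn v (sh A B) n (P - Q) := by
    have h1 : ∀ P : Pt (sh A B) (v.adicCompletion F), ∃ m : ℕ, P ≠ 0 → ∀ n, m ≤ n → ¬ Hn v (sh A B) n P := by
      intro P
      by_cases hP : P = 0
      · exact ⟨0, fun h => absurd hP h⟩
      · obtain ⟨m, hm⟩ := out_of v (sh A B) P hP
        exact ⟨m, fun _ => hm⟩
    choose m hm using h1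
    refine ⟨1 + n0 + (K0 ×ˢ K0).sup (fun p => m (p.1 - p.2)), by omega, by omega, fun P hP Q hQ hne => ?_⟩
    apply hm (P - Q) (sub_ne_zero.2 hne)
    have h2 : m (P - Q) ≤ (K0 ×ˢ K0).sup (fun p => m (p.1 - p.2)) :=
      Finset.le_sup (f := fun p : Pt (sh A B) (v.adicCompletion F) × Pt (sh A B) (v.adicCompletion F) =>
        m (p.1 - p.2)) (b := (P, Q)) (mem_product.2 ⟨hP, hQ⟩)
    omega
  -- the subgroups
  have hzero : ∀ n : ℕ, Hn v (sh A B) n 0 := by
    intro n x y h h0
    exact absurd h0.symm (Affine.Point.some_ne_zero h)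
  let H : ∀ n : ℕ, 1 ≤ n → AddSubgroup (Pt (sh A B) (v.adicCompletion F)) := fun n hn =>
    { carrier := {P | Hn v (sh A B) n P}
      add_mem' := fun {P Q} hP hQ => hadd n hn P Q hP hQ
      zero_mem' := hzero n
      neg_mem' := fun {P} hP => hneg n P hP }
  have hH : ∀ n hn P, P ∈ H n hn ↔ Hn v (sh A B) n P := fun n hn P => Iff.rfl
  have hn1' : 1 ≤ n + e := by omega
  -- the points
  obtain ⟨Z, hZc, hZ1, hZ2⟩ := reps v n e
  have hpt : ∀ z : v.adicCompletion F, ∃ P : Pt (sh A B) (v.adicCompletion F), z ∈ Z →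
      ∃ (x y : v.adicCompletion F) (h : _), P = Affine.Point.some x y h ∧ y ≠ 0 ∧ x = z * y ∧
        Valued.v x * Valued.v z ^ 2 = 1 := by
    intro z
    by_cases hz : z ∈ Z
    · obtain ⟨hz0, hz1⟩ := hZ1 z hz
      obtain ⟨x, y, hy, hx, hv, he⟩ := hLPT F v A B (val_int v hA) (val_int v hB) z hz0
        (hz1.trans_lt (by rw [← WithZero.exp_zero, WithZero.exp_lt_exp]; omega))
      exact ⟨Affine.Point.some x y (nons hd v he), fun _ => ⟨x, y, nons hd v he, rfl, hy, hx, hv⟩⟩
    · exact ⟨0, fun h => absurd h hz⟩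
  choose P hP using hpt
  have hbig : ∀ z ∈ Z, ∀ x : v.adicCompletion F, Valued.v x * Valued.v z ^ 2 = 1 →
      WithZero.exp (2 * (n : ℤ)) ≤ Valued.v x := by
    intro z hz x hx
    obtain ⟨hz0, hz1⟩ := hZ1 z hz
    have h1 : Valued.v z ^ 2 ≤ WithZero.exp (-(2 * (n : ℤ))) := by
      refine (pow_le_pow_left₀ zero_le hz1 2).trans (le_of_eq ?_)
      rw [← WithZero.exp_nsmul]
      congr 1
      simp
    have h2 : (1 : WithZero (Multiplicative ℤ)) ≤ Valued.v x * WithZero.exp (-(2 * (n : ℤ))) := by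
      rw [← hx]
      exact mul_le_mul_right h1 _
    have h3 := mul_le_mul_left h2 (WithZero.exp (2 * (n : ℤ)))
    rw [one_mul, mul_assoc, ← WithZero.exp_add] at h3
    simpa using h3
  have hdiff : ∀ z ∈ Z, ∀ z' ∈ Z, z ≠ z' → ¬ Hn v (sh A B) (n + e) (P z - P z') := by
    intro z hz z' hz' hne hh
    obtain ⟨x, y, h, hPz, hy, hx, hv⟩ := hP z hz
    obtain ⟨x', y', h', hPz', hy', hx', hv'⟩ := hP z' hz'
    have h2 : WithZero.exp (2 : ℤ) ≤ WithZero.exp (2 * (n : ℤ)) := by
      rw [WithZero.exp_le_exp]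
      omega
    have h1 := hdist (n + e) hn1' (P z) (P z') x y x' y' h h' hPz hPz' (h2.trans (hbig z hz x hv))
      (h2.trans (hbig z' hz' x' hv')) hh
    rw [hx, hx', mul_div_assoc, mul_div_assoc, div_self hy, div_self hy', mul_one, mul_one] at h1
    exact hZ2 z hz z' hz' hne h1
  -- the result
  obtain ⟨M, hM1, hM2⟩ := hABS (Pt (sh A B) (v.adicCompletion F)) θ (H n hn1) (H (n + e) hn1')
    (by
      intro Q hQ x y h hxy
      have h1 := (hH (n + e) hn1' Q).1 hQ x y h hxy
      refine le_trans ?_ h1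
      rw [WithZero.exp_le_exp]
      push_cast
      omega)
    (by
      intro Q hQ
      rw [hH n hn1] at hQ
      rcases Q with _ | ⟨x, y, h⟩
      · have h1 : θ (0 : Pt (sh A B) (v.adicCompletion F)) = 0 := map_zero θ
        show θ (0 : Pt (sh A B) (v.adicCompletion F)) ∈ _
        rw [h1]
        exact (H (n + e) hn1').zero_mem
      · have h1 := hQ x y h rfl
        have h2 : WithZero.exp (n0 : ℤ) ≤ WithZero.exp (2 * (n : ℤ)) := by
          rw [WithZero.exp_le_exp]
          omega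
        obtain ⟨X, Y, h', h3, h4⟩ := hθ x y h (h2.trans h1)
        rw [hH (n + e) hn1', h3]
        intro X' Y' h'' h5
        have h6 := (Affine.Point.some.inj h5).1
        rw [← h6]
        refine le_trans ?_ h4
        refine le_trans (le_of_eq ?_) (mul_le_mul_right h1 _)
        rw [← WithZero.exp_add]
        congr 1
        push_cast
        ring)
    (by
      obtain ⟨T, hT⟩ := hfin (n + e)
      exact ⟨T, hT⟩)
    K0 (Z.image P) hK0 hnK
    (by
      intro Q hQ
      obtain ⟨z, hz, rfl⟩ := mem_image.1 hQ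
      rw [hH n hn1]
      intro x y h hxy
      obtain ⟨x1, y1, h1, hPz, hy, hx, hv⟩ := hP z hz
      rw [hPz] at hxy
      have h6 := (Affine.Point.some.inj hxy).1
      rw [← h6]
      exact hbig z hz x1 hv)
    (by
      intro Q hQ Q' hQ' hne
      obtain ⟨z, hz, rfl⟩ := mem_image.1 hQ
      obtain ⟨z', hz', rfl⟩ := mem_image.1 hQ'
      rw [hH (n + e) hn1']
      exact hdiff z hz z' hz' fun h => hne (by rw [h]))
  refine ⟨M, ?_, hM2⟩
  have hcard : (Z.image P).card = Z.card := by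
    refine card_image_of_injOn fun z hz z' hz' h => ?_
    by_contra hne
    apply hdiff z hz z' hz' hne
    have h1 : P z = P z' := h
    rw [h1, sub_self]
    exact hzero _
  rw [hcard, hZc] at hM1
  exact hM1

end Pool.Agent.Q26.EN
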