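import Pool.Agent.Q26.EN.LIX

/-!
# EN-LIXG: the local index for `y² + a y = x³ + b x`
-/

set_option autoImplicit false

namespace Pool.Agent.Q26.EN

open NumberField IsDedekindDomain Finset WeierstrassCurve
open Pool.Agent.Q283.EN
open Pool.Agent.TH841.SH.D (Pt)

section curve

variable {L : Type} [Field L] {V : WeierstrassCurve L} {α β γ : L}

/-- the curve `y² + α y = x³ + β x + γ` -/
structure IsC (V : WeierstrassCurve L) (α β γ : L) : Prop where
  h1 : V.a₁ = 0
  h2 : V.a₂ = 0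
  h3 : V.a₃ = α
  h4 : V.a₄ = β
  h6 : V.a₆ = γ

theorem IsC.eqn (hV : IsC V α β γ) (x y : L) :
    V.toAffine.Equation x y ↔ y ^ 2 + α * y = x ^ 3 + β * x + γ := by
  rw [Affine.equation_iff]
  show y ^ 2 + V.a₁ * x * y + V.a₃ * y = x ^ 3 + V.a₂ * x ^ 2 + V.a₄ * x + V.a₆ ↔ _
  rw [hV.h1, hV.h2, hV.h3, hV.h4, hV.h6]
  constructor
  · intro h; linear_combination h
  · intro h; linear_combination h

theorem IsC.negY (hV : IsC V α β γ) (x y : L) : V.toAffine.negY x y = -y - α := by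
  show -y - V.a₁ * x - V.a₃ = -y - α
  rw [hV.h1, hV.h3]
  ring

theorem IsC.nons (hV : IsC V α β γ) (hd : V.Δ ≠ 0) {x y : L} (he : y ^ 2 + α * y = x ^ 3 + β * x + γ) :
    V.toAffine.Nonsingular x y :=
  (Affine.equation_iff_nonsingular_of_Δ_ne_zero hd).1 ((hV.eqn x y).2 he)

/-- the addition law -/
theorem IsC.add_ex [DecidableEq L] (hV : IsC V α β γ) {x1 y1 x2 y2 : L} (h1 : V.toAffine.Nonsingular x1 y1)
    (h2 : V.toAffine.Nonsingular x2 y2) (hxy : ¬ (x1 = x2 ∧ y1 = -y2 - α)) :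
    ∃ (ℓ X Y : L) (h : V.toAffine.Nonsingular X Y),
      (Affine.Point.some x1 y1 h1 : V.toAffine.Point) + .some x2 y2 h2 = .some X Y h ∧
      X = ℓ ^ 2 - x1 - x2 ∧ Y = -(ℓ * (X - x1) + y1) - α ∧
      ((x1 ≠ x2 ∧ ℓ * (x1 - x2) = y1 - y2) ∨
        (x1 = x2 ∧ y1 = y2 ∧ 2 * y1 + α ≠ 0 ∧ ℓ * (2 * y1 + α) = 3 * x1 ^ 2 + β)) := by
  have hxy' : ¬ (x1 = x2 ∧ y1 = V.toAffine.negY x2 y2) := by rwa [hV.negY]
  refine ⟨V.toAffine.slope x1 x2 y1 y2, _, _, _, Affine.Point.add_some hxy', ?_, ?_, ?_⟩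
  · show _ ^ 2 + V.a₁ * _ - V.a₂ - x1 - x2 = _
    rw [hV.h1, hV.h2]
    ring
  · show -(_ * (_ ^ 2 + V.a₁ * _ - V.a₂ - x1 - x2 - x1) + y1) - V.a₁ * _ - V.a₃ =
      -(_ * ((_ ^ 2 + V.a₁ * _ - V.a₂ - x1 - x2) - x1) + y1) - α
    rw [hV.h1, hV.h3]
    ring
  · by_cases hx : x1 = x2
    · right
      subst hx
      have hy : y1 ≠ -y2 - α := fun h => hxy ⟨rfl, h⟩
      have e1 := (hV.eqn _ _).1 h1.1
      have e2 := (hV.eqn _ _).1 h2.1
      have e3 : (y1 - y2) * (y1 + y2 + α) = 0 := by linear_combination e1 - e2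
      have e4 : y1 + y2 + α ≠ 0 := fun h => hy (by linear_combination h)
      have e5 : y1 = y2 := by
        have := (mul_eq_zero.1 e3).resolve_right e4
        linear_combination this
      subst e5
      have e6 : 2 * y1 + α ≠ 0 := by
        intro h
        apply e4
        linear_combination h
      refine ⟨rfl, rfl, e6, ?_⟩
      have hY : y1 ≠ V.toAffine.negY x1 y1 := by rwa [hV.negY]
      rw [Affine.slope_of_Y_ne rfl hY, hV.negY]
      show (3 * x1 ^ 2 + 2 * V.a₂ * x1 + V.a₄ - V.a₁ * y1) / (y1 - (-y1 - α)) * (2 * y1 + α) = _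
      rw [hV.h1, hV.h2, hV.h4]
      have e7 : y1 - (-y1 - α) ≠ 0 := by
        intro h
        apply e4
        linear_combination h
      rw [div_mul_eq_mul_div, div_eq_iff e7]
      ring
    · left
      refine ⟨hx, ?_⟩
      rw [Affine.slope_of_X_ne hx, div_mul_cancel₀ _ (sub_ne_zero.2 hx)]

/-- opposite points -/
theorem IsC.add_opp [DecidableEq L] (hV : IsC V α β γ) {x1 y1 x2 y2 : L} (h1 : V.toAffine.Nonsingular x1 y1)
    (h2 : V.toAffine.Nonsingular x2 y2) (hxy : x1 = x2 ∧ y1 = -y2 - α) :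
    (Affine.Point.some x1 y1 h1 : V.toAffine.Point) + .some x2 y2 h2 = 0 :=
  Affine.Point.add_of_Y_eq hxy.1 (by rw [hV.negY]; exact hxy.2)

end curve

section iso

variable {L : Type} [Field L] [CharZero L] {V W : WeierstrassCurve L} {a b : L}

/-- the change of variables -/
def cv (hV : IsC V a b 0) (hW : IsC W 0 (16 * b) (16 * a ^ 2)) (hd : W.Δ ≠ 0) : V.toAffine.Point → W.toAffine.Point
  | 0 => 0
  | .some x y h => .some (4 * x) (8 * y + 4 * a) (hW.nons hd (by
      have := (hV.eqn _ _).1 h.1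
      linear_combination 64 * this))

omit [CharZero L] in
theorem cv_some (hV : IsC V a b 0) (hW : IsC W 0 (16 * b) (16 * a ^ 2)) (hd : W.Δ ≠ 0) {x y : L}
    (h : V.toAffine.Nonsingular x y) : ∃ h', cv hV hW hd (.some x y h) = .some (4 * x) (8 * y + 4 * a) h' :=
  ⟨_, rfl⟩

/-- the inverse change of variables -/
noncomputable def vc (hV : IsC V a b 0) (hW : IsC W 0 (16 * b) (16 * a ^ 2)) (hd : V.Δ ≠ 0) :
    W.toAffine.Point → V.toAffine.Point
  | 0 => 0
  | .some x y h => .some (x / 4) ((y - 4 * a) / 8) (hV.nons hd (by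
      have := (hW.eqn _ _).1 h.1
      linear_combination this / 64))

theorem cv_add [DecidableEq L] (hV : IsC V a b 0) (hW : IsC W 0 (16 * b) (16 * a ^ 2)) (hd : W.Δ ≠ 0)
    (P Q : V.toAffine.Point) : cv hV hW hd (P + Q) = cv hV hW hd P + cv hV hW hd Q := by
  rcases P with _ | ⟨x1, y1, h1⟩
  · show cv hV hW hd (0 + Q) = 0 + _
    rw [zero_add, zero_add]
  rcases Q with _ | ⟨x2, y2, h2⟩
  · show cv hV hW hd (_ + 0) = _ + 0
    rw [add_zero, add_zero]
  obtain ⟨g1, e1⟩ := cv_some hV hW hd h1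
  obtain ⟨g2, e2⟩ := cv_some hV hW hd h2
  have h4 : (4 : L) ≠ 0 := by norm_num
  by_cases hxy : x1 = x2 ∧ y1 = -y2 - a
  · rw [hV.add_opp h1 h2 hxy, e1, e2, hW.add_opp]
    · rfl
    · rw [hxy.1, hxy.2]
      exact ⟨rfl, by ring⟩
  · obtain ⟨ℓ, X, Y, h, e, eX, eY, hs⟩ := hV.add_ex h1 h2 hxy
    have hxy' : ¬ (4 * x1 = 4 * x2 ∧ 8 * y1 + 4 * a = -(8 * y2 + 4 * a) - 0) := by
      rintro ⟨h3, h5⟩
      have h8 : (8 : L) ≠ 0 := by norm_num
      refine hxy ⟨mul_left_cancel₀ h4 h3, mul_left_cancel₀ h8 ?_⟩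
      linear_combination h5
    obtain ⟨m, X', Y', h', e', eX', eY', hs'⟩ := hW.add_ex g1 g2 hxy'
    have hm : m = 2 * ℓ := by
      rcases hs with ⟨k1, k2⟩ | ⟨k1, k2, k3, k4⟩
      · rcases hs' with ⟨k1', k2'⟩ | ⟨k1', -⟩
        · apply mul_right_cancel₀ (mul_ne_zero h4 (sub_ne_zero.2 k1))
          linear_combination k2' - 8 * k2
        · exact absurd (mul_left_cancel₀ h4 k1') k1
      · rcases hs' with ⟨k1', -⟩ | ⟨k1', k2', k3', k4'⟩
        · exact absurd (by rw [k1]) k1'
        · apply mul_right_cancel₀ k3'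
          linear_combination k4' - 16 * k4
    obtain ⟨g3, e3⟩ := cv_some hV hW hd h
    rw [e, e1, e2, e3, e']
    have hX : 4 * X = X' := by
      rw [eX, eX', hm]
      ring
    have hY : 8 * Y + 4 * a = Y' := by
      rw [eY, eY', ← hX, hm]
      ring
    rw [Affine.Point.some.injEq]
    exact ⟨hX, hY⟩

/-- the isomorphism of groups -/
noncomputable def ism [DecidableEq L] (hV : IsC V a b 0) (hW : IsC W 0 (16 * b) (16 * a ^ 2)) (hdV : V.Δ ≠ 0)
    (hdW : W.Δ ≠ 0) : V.toAffine.Point ≃+ W.toAffine.Point where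
  toFun := cv hV hW hdW
  invFun := vc hV hW hdV
  left_inv := by
    intro P
    rcases P with _ | ⟨x, y, h⟩
    · rfl
    · show Affine.Point.some _ _ _ = Affine.Point.some _ _ _
      rw [Affine.Point.some.injEq]
      constructor
      · field_simp
      · field_simp
        ring
  right_inv := by
    intro P
    rcases P with _ | ⟨x, y, h⟩
    · rfl
    · show Affine.Point.some _ _ _ = Affine.Point.some _ _ _
      rw [Affine.Point.some.injEq]
      constructor
      · field_simp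
      · field_simp
        ring
  map_add' := cv_add hV hW hdW

end iso

theorem lixg (hLIX : Pool.Agent.Q283.EN.S_LIX) : Pool.Agent.Q283.EN.S_LIXG := by
  classical
  intro F _ _ v a b ha hb hd θ e n0 hθ K0 hK0
  have hchar : CharZero (v.adicCompletion F) := charZero_of_injective_algebraMap (algebraMap F _).injective
  have hV : IsC ((EG a b).baseChange (v.adicCompletion F)) (algebraMap F (v.adicCompletion F) a)
      (algebraMap F (v.adicCompletion F) b) 0 :=
    ⟨map_zero _, map_zero _, rfl, rfl, map_zero _⟩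
  have hW : IsC ((sh (16 * b) (16 * a ^ 2)).baseChange (v.adicCompletion F)) 0
      (16 * algebraMap F (v.adicCompletion F) b) (16 * algebraMap F (v.adicCompletion F) a ^ 2) := by
    refine ⟨map_zero _, map_zero _, map_zero _, ?_, ?_⟩
    · show algebraMap F (v.adicCompletion F) (16 * b) = _
      rw [map_mul, map_ofNat]
    · show algebraMap F (v.adicCompletion F) (16 * a ^ 2) = _
      rw [map_mul, map_ofNat, map_pow]
  have hd' : 4 * (16 * b) ^ 3 + 27 * (16 * a ^ 2) ^ 2 ≠ 0 := by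
    intro h0
    apply hd
    have h1 : (256 : F) * (64 * b ^ 3 + 27 * a ^ 4) = 0 := by linear_combination h0
    exact (mul_eq_zero.1 h1).resolve_left (by norm_num)
  have hdW := delta_ne hd' v
  have hdV : ((EG a b).baseChange (v.adicCompletion F)).Δ ≠ 0 := by
    have h1 : ((EG a b).baseChange (v.adicCompletion F)).Δ = algebraMap F (v.adicCompletion F) (EG a b).Δ :=
      WeierstrassCurve.map_Δ _ _
    have h2 : (EG a b).Δ = -(64 * b ^ 3 + 27 * a ^ 4) := by
      simp only [EG, WeierstrassCurve.Δ, WeierstrassCurve.b₂, WeierstrassCurve.b₄, WeierstrassCurve.b₆,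
        WeierstrassCurve.b₈]
      ring
    rw [h1, h2]
    intro h0
    have h3 := (map_eq_zero (algebraMap F (v.adicCompletion F))).1 h0
    exact hd (neg_eq_zero.1 h3)
  -- the isomorphism
  let f : Pt (EG a b) (v.adicCompletion F) ≃+ Pt (sh (16 * b) (16 * a ^ 2)) (v.adicCompletion F) :=
    @ism (v.adicCompletion F) _ hchar _ _ _ _ (Classical.decEq _) hV hW hdV hdW
  have hf : ∀ (x y : v.adicCompletion F) (h : ((EG a b).baseChange (v.adicCompletion F)).toAffine.Nonsingular x y),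
      ∃ h', f (Affine.Point.some x y h) =
        Affine.Point.some (4 * x) (8 * y + 4 * algebraMap F (v.adicCompletion F) a) h' :=
    fun x y h => ⟨_, rfl⟩
  have hg : ∀ (x y : v.adicCompletion F)
      (h : ((sh (16 * b) (16 * a ^ 2)).baseChange (v.adicCompletion F)).toAffine.Nonsingular x y),
      ∃ h', f.symm (Affine.Point.some x y h) =
        Affine.Point.some (x / 4) ((y - 4 * algebraMap F (v.adicCompletion F) a) / 8) h' :=
    fun x y h => ⟨_, rfl⟩
  have h4 : Valued.v (4 : v.adicCompletion F) ≤ 1 := by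
    have h5 := val_int v (A := (4 : F)) (by
      have := isIntegral_algebraMap (R := ℤ) (A := F) (x := (4 : ℤ))
      simpa using this)
    rw [← vmap, map_ofNat] at h5
    exact h5
  have h40 : Valued.v (4 : v.adicCompletion F) ≠ 0 := by
    rw [Valuation.ne_zero_iff]
    norm_num
  have h16 : _root_.IsIntegral ℤ (16 : F) := by
    have := isIntegral_algebraMap (R := ℤ) (A := F) (x := (16 : ℤ))
    simpa using this
  obtain ⟨M, hM1, hM2⟩ := hLIX F v (16 * b) (16 * a ^ 2) (h16.mul hb) (h16.mul (ha.pow 2)) hd'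
    ((f.toAddMonoidHom.comp θ).comp f.symm.toAddMonoidHom) e n0
    (by
      intro x y h hx
      obtain ⟨h', e1⟩ := hg x y h
      have hx4 : Valued.v x ≤ Valued.v (x / 4) := by
        rw [map_div₀, le_div_iff₀ (zero_lt_iff.2 h40)]
        exact mul_le_of_le_one_right' h4
      obtain ⟨X, Y, h'', e2, h6⟩ := hθ _ _ h' (hx.trans hx4)
      obtain ⟨h''', e3⟩ := hf X Y h''
      refine ⟨_, _, h''', ?_, ?_⟩
      · show f (θ (f.symm (Affine.Point.some x y h))) = _
        rw [e1, e2, e3]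
      · rw [map_mul]
        have h7 := mul_le_mul_right h6 (Valued.v (4 : v.adicCompletion F))
        refine le_trans (le_of_eq ?_) h7
        rw [map_div₀]
        field_simp)
    (K0.image f) (by
      intro P hP
      obtain ⟨Q, hQ, rfl⟩ := mem_image.1 hP
      show f (θ (f.symm (f Q))) = 0
      rw [f.symm_apply_apply, hK0 Q hQ, map_zero])
  rw [card_image_of_injective _ f.injective] at hM1
  refine ⟨M.image f.symm, ?_, ?_⟩
  · rw [card_image_of_injective _ f.symm.injective]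
    exact hM1
  · intro P hP Q hQ hne R hR
    obtain ⟨P', hP', rfl⟩ := mem_image.1 hP
    obtain ⟨Q', hQ', rfl⟩ := mem_image.1 hQ
    refine hM2 P' hP' Q' hQ' (fun h => hne (by rw [h])) (f R) ?_
    show P' - Q' = f (θ (f.symm (f R)))
    rw [f.symm_apply_apply, ← hR, map_sub, f.apply_symm_apply, f.apply_symm_apply]

end Pool.Agent.Q26.EN
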