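import Pool.Agent.Q283.EN.Stm3

/-!
# EN-QCOC: the points `R`, `R + T` on `y² = x³ + D x`
-/

set_option autoImplicit false

namespace Pool.Agent.Q26.EN.QC

open WeierstrassCurve
open Pool.Agent.Q283.EN
open Pool.Agent.TH841.SH.D (Coch Pt act Gal IsCoc IsCob LocTriv)

section

variable {F : Type} [Field F] {D : F} {L : Type} [Field L] [Algebra F L]

theorem eqn_iff (x y : L) : ((EQ D).baseChange L).toAffine.Equation x y ↔
    y ^ 2 = x ^ 3 + algebraMap F L D * x := by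
  rw [Affine.equation_iff]
  show y ^ 2 + algebraMap F L 0 * x * y + algebraMap F L 0 * y =
    x ^ 3 + algebraMap F L 0 * x ^ 2 + algebraMap F L D * x + algebraMap F L 0 ↔ _
  rw [map_zero]
  constructor
  · intro h; linear_combination h
  · intro h; linear_combination h

theorem delta_ne (h2 : (2 : L) ≠ 0) (hD : D ≠ 0) : ((EQ D).baseChange L).Δ ≠ 0 := by
  have h1 : ((EQ D).baseChange L).Δ = algebraMap F L (EQ D).Δ := WeierstrassCurve.map_Δ _ _
  have h3 : (EQ D).Δ = -(2 ^ 6) * D ^ 3 := by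
    simp only [EQ, WeierstrassCurve.Δ, WeierstrassCurve.b₂, WeierstrassCurve.b₄, WeierstrassCurve.b₆,
      WeierstrassCurve.b₈]
    ring
  rw [h1, h3, map_mul, map_neg, map_pow, map_pow, map_ofNat]
  exact mul_ne_zero (neg_ne_zero.2 (pow_ne_zero 6 h2)) (pow_ne_zero 3 ((map_ne_zero _).2 hD))

theorem nons_iff (h2 : (2 : L) ≠ 0) (hD : D ≠ 0) (x y : L) : ((EQ D).baseChange L).toAffine.Nonsingular x y ↔
    y ^ 2 = x ^ 3 + algebraMap F L D * x :=
  (Affine.equation_iff_nonsingular_of_Δ_ne_zero (delta_ne h2 hD)).symm.trans (eqn_iff x y)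

/-- the point `(x, y)` -/
def mkP (h2 : (2 : L) ≠ 0) (hD : D ≠ 0) (x y : L) (h : y ^ 2 = x ^ 3 + algebraMap F L D * x) : Pt (EQ D) L :=
  Affine.Point.some x y ((nons_iff h2 hD x y).2 h)

theorem mkP_inj {h2 : (2 : L) ≠ 0} {hD : D ≠ 0} {x y x' y' : L} {h h'} (e : mkP h2 hD x y h = mkP h2 hD x' y' h') :
    x = x' ∧ y = y' := by
  unfold mkP at e
  exact ⟨(Affine.Point.some.inj e).1, (Affine.Point.some.inj e).2⟩

theorem mkP_cg {h2 : (2 : L) ≠ 0} {hD : D ≠ 0} {x y x' y' : L} {h h'} (hx : x = x') (hy : y = y') :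
    mkP h2 hD x y h = mkP h2 hD x' y' h' := by
  subst hx
  subst hy
  rfl

variable (D) in
/-- the point `T = (0, 0)` -/
def TT (h2 : (2 : L) ≠ 0) (hD : D ≠ 0) : Pt (EQ D) L := mkP h2 hD 0 0 (by ring)

theorem T_ne (h2 : (2 : L) ≠ 0) (hD : D ≠ 0) : (TT D h2 hD : Pt (EQ D) L) ≠ 0 :=
  Affine.Point.some_ne_zero _

theorem add_T (h2 : (2 : L) ≠ 0) (hD : D ≠ 0) {x y : L} (h : y ^ 2 = x ^ 3 + algebraMap F L D * x)
    (hx : x ≠ 0) {X Y : L} (h' : Y ^ 2 = X ^ 3 + algebraMap F L D * X) (hX : X * x = algebraMap F L D)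
    (hY : Y * x ^ 2 = -(algebraMap F L D) * y) :
    mkP h2 hD x y h + TT D h2 hD = mkP h2 hD X Y h' := by
  let _ := Classical.decEq L
  refine (Affine.Point.add_of_X_ne hx).trans ?_
  unfold mkP
  rw [Affine.Point.some.injEq]
  rw [Affine.slope_of_X_ne hx]
  have e1 : X = algebraMap F L D / x := by rw [eq_div_iff hx]; exact hX
  have e2 : Y = -(algebraMap F L D) * y / x ^ 2 := by rw [eq_div_iff (pow_ne_zero 2 hx)]; exact hY
  simp only [Affine.addX, Affine.addY, Affine.negY, Affine.negAddY, EQ, WeierstrassCurve.baseChange, map_a₁, map_a₂, map_a₃, map_zero, zero_mul, add_zero, sub_zero]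
  rw [e1, e2]
  constructor
  · field_simp
    linear_combination h
  · field_simp
    linear_combination -y * h

theorem T_add_T (h2 : (2 : L) ≠ 0) (hD : D ≠ 0) : TT D h2 hD + TT D h2 hD = (0 : Pt (EQ D) L) := by
  let _ := Classical.decEq L
  have hy : (0 : L) = ((EQ D).baseChange L).toAffine.negY 0 0 := by
    simp only [Affine.negY, EQ, WeierstrassCurve.baseChange, map_a₁, map_a₃, map_zero, zero_mul, sub_zero, neg_zero]
  exact Affine.Point.add_of_Y_eq rfl hy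

section act

variable {L' : Type} [Field L'] [Algebra F L']

theorem act_mk (φ : L →ₐ[F] L') (h2 : (2 : L) ≠ 0) (h2' : (2 : L') ≠ 0) (hD : D ≠ 0) {x y : L}
    (h : y ^ 2 = x ^ 3 + algebraMap F L D * x) :
    ∃ h', act (EQ D) φ (mkP h2 hD x y h) = mkP h2' hD (φ x) (φ y) h' := by
  have h' : φ y ^ 2 = φ x ^ 3 + algebraMap F L' D * φ x := by
    rw [← map_pow, ← map_pow, ← φ.commutes, ← map_mul, ← map_add, h]
  refine ⟨h', ?_⟩
  rfl

theorem act_TT (φ : L →ₐ[F] L') (h2 : (2 : L) ≠ 0) (h2' : (2 : L') ≠ 0) (hD : D ≠ 0) :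
    act (EQ D) φ (TT D h2 hD) = TT D h2' hD := by
  obtain ⟨h', e⟩ := act_mk φ h2 h2' hD (show (0 : L) ^ 2 = 0 ^ 3 + algebraMap F L D * 0 by ring)
  unfold TT
  rw [e]
  exact mkP_cg (map_zero _) (map_zero _)

end act

/-- a point is `0`, or `(x, y)` -/
theorem pt_cases (h2 : (2 : L) ≠ 0) (hD : D ≠ 0) (P : Pt (EQ D) L) :
    P = 0 ∨ ∃ x y h, P = mkP h2 hD x y h := by
  match P with
  | Affine.Point.zero => exact Or.inl rfl
  | Affine.Point.some x y h => exact Or.inr ⟨x, y, (nons_iff h2 hD x y).1 h, rfl⟩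

end

/-- the preimage of `(λ², Y)` -/
theorem pre {L : Type} [Field L] {I d lam Y : L} (hI : I ^ 2 = -1) (hl : lam ≠ 0)
    (hY : Y ^ 2 = (lam ^ 2) ^ 3 + d * lam ^ 2) :
    (I * (lam ^ 2 + Y / lam)) * (I * (lam ^ 2 - Y / lam)) = d ∧
    ((1 + I) * lam * (I * (lam ^ 2 + Y / lam))) ^ 2 =
      (I * (lam ^ 2 + Y / lam)) ^ 3 + d * (I * (lam ^ 2 + Y / lam)) := by
  have e1 : (I * (lam ^ 2 + Y / lam)) * (I * (lam ^ 2 - Y / lam)) = d := by
    have e2 : (Y / lam) ^ 2 = lam ^ 4 + d := by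
      rw [div_pow, hY]
      field_simp
    linear_combination (lam ^ 4 - (Y / lam) ^ 2) * hI + e2
  refine ⟨e1, ?_⟩
  obtain ⟨x, hx⟩ : ∃ x, x = I * (lam ^ 2 + Y / lam) := ⟨_, rfl⟩
  obtain ⟨x', hx'⟩ : ∃ x', x' = I * (lam ^ 2 - Y / lam) := ⟨_, rfl⟩
  rw [← hx, ← hx'] at e1
  rw [← hx]
  have e3 : x + x' = 2 * I * lam ^ 2 := by
    rw [hx, hx']
    ring
  linear_combination lam ^ 2 * x ^ 2 * hI - x ^ 2 * e3 + x * e1

end Pool.Agent.Q26.EN.QC
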