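import Pool.Agent.Q26.EN.QCA
import Pool.Agent.Q26.EN.QPOW

/-!
# EN-QCOC: from a class to a cocycle
-/

set_option autoImplicit false

namespace Pool.Agent.Q26.EN

open NumberField IsDedekindDomain WeierstrassCurve
open Pool.Agent.Q283.EN
open Pool.Agent.Q26.EN.QC
open Pool.Agent.TH841.SH.D (Coch Pt act Gal IsCoc IsCob LocTriv)
open Pool.Agent.TH841.NF.D (Sha IsShaCoc)

section gen

variable {k : Type} [Field k]

theorem lc_app (x : AlgebraicClosure k) : IsLocallyConstant (fun σ : Gal k => σ x) := by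
  rw [IsLocallyConstant.iff_exists_open]
  intro σ
  have hx : IsIntegral k x := Algebra.IsIntegral.isIntegral x
  have : FiniteDimensional k (IntermediateField.adjoin k {x}) :=
    IntermediateField.adjoin.finiteDimensional hx
  refine ⟨(fun τ => σ⁻¹ * τ) ⁻¹'
    ((IntermediateField.adjoin k {x}).fixingSubgroup : Set (Gal k)),
    (IntermediateField.fixingSubgroup_isOpen _).preimage (continuous_const_mul _), ?_, ?_⟩
  · show σ⁻¹ * σ ∈ (IntermediateField.adjoin k {x}).fixingSubgroup
    rw [inv_mul_cancel]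
    exact one_mem _
  · intro τ hτ
    have h1 : σ⁻¹ * τ ∈ (IntermediateField.adjoin k {x}).fixingSubgroup := hτ
    rw [IntermediateField.mem_fixingSubgroup_iff] at h1
    have h2 := h1 x (IntermediateField.mem_adjoin_simple_self k x)
    rw [AlgEquiv.mul_apply] at h2
    have h3 := congrArg σ h2
    rw [← AlgEquiv.mul_apply, mul_inv_cancel, AlgEquiv.one_apply] at h3
    exact h3

open Classical in
/-- the cochain `σ ↦ h(σ) T` -/
noncomputable def ff {D : k} (h2 : (2 : AlgebraicClosure k) ≠ 0) (hD : D ≠ 0) (α : AlgebraicClosure k) : Coch (EQ D) :=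
  fun σ => if σ α = α then 0 else TT D h2 hD

variable {D : k} {h2 : (2 : AlgebraicClosure k) ≠ 0} {hD : D ≠ 0} {α : AlgebraicClosure k}

theorem ff_pos {σ : Gal k} (h : σ α = α) : ff h2 hD α σ = 0 := if_pos h

theorem ff_neg {σ : Gal k} (h : ¬ σ α = α) : ff h2 hD α σ = TT D h2 hD := if_neg h

theorem neg_ne (h2 : (2 : AlgebraicClosure k) ≠ 0) (h0 : α ≠ 0) : -α ≠ α := by
  intro h
  have h1 : 2 * α = 0 := by linear_combination -h
  rcases mul_eq_zero.1 h1 with h3 | h3
  · exact h2 h3
  · exact h0 h3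

theorem ff_coc (h0 : α ≠ 0) (hα : ∀ σ : Gal k, σ α = α ∨ σ α = -α) : IsCoc (EQ D) (ff h2 hD α) := by
  classical
  refine ⟨?_, fun σ τ => ?_⟩
  · have e : ff h2 hD α = (fun z : AlgebraicClosure k => if z = α then (0 : Pt (EQ D) (AlgebraicClosure k)) else
        TT D h2 hD) ∘ (fun σ : Gal k => σ α) := by
      funext σ
      show (if σ α = α then (0 : Pt (EQ D) (AlgebraicClosure k)) else TT D h2 hD) = if σ α = α then 0 else TT D h2 hD
      by_cases h : σ α = α
      · rw [if_pos h]
      · rw [if_neg h]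
    rw [e]
    exact (lc_app α).comp _
  · have hne := neg_ne h2 h0
    have hT : act (EQ D) σ.toAlgHom (TT D h2 hD) = TT D h2 hD := act_TT σ.toAlgHom h2 h2 hD
    have hmul : (σ * τ) α = σ (τ α) := AlgEquiv.mul_apply σ τ α
    rcases hα τ with ht | ht
    · rw [ff_pos ht, map_zero, add_zero]
      rw [ht] at hmul
      rcases hα σ with hs | hs
      · rw [ff_pos hs, ff_pos (hmul.trans hs)]
      · have h1 : ¬ σ α = α := by
          rw [hs]
          exact hne
        rw [ff_neg h1, ff_neg (by rw [hmul]; exact h1)]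
    · have h1 : ¬ τ α = α := by
        rw [ht]
        exact hne
      rw [ff_neg h1, hT]
      rw [ht, map_neg] at hmul
      rcases hα σ with hs | hs
      · rw [ff_pos hs, zero_add, ff_neg]
        rw [hmul, hs]
        exact hne
      · have h3 : ¬ σ α = α := by
          rw [hs]
          exact hne
        rw [ff_neg h3, T_add_T, ff_pos]
        rw [hmul, hs, neg_neg]

/-- the local triviality at a field over which `a` is the class of a point -/
theorem ff_loc {i a : k} (hi : i ^ 2 = -1) (h0 : α ≠ 0) (hα : ∀ σ : Gal k, σ α = α ∨ σ α = -α)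
    (ha : α ^ 2 = algebraMap k (AlgebraicClosure k) a) (K : Type) [Field K] [Algebra k K] [CharZero K]
    (P : Pt (EQ D) K) (hP : CQ D K P (algebraMap k K a)) : LocTriv (EQ D) K (ff h2 hD α) := by
  intro ι
  have k2 : (2 : AlgebraicClosure K) ≠ 0 := two_ne_zero
  have htower : ∀ z : k, algebraMap k (AlgebraicClosure K) z = algebraMap K (AlgebraicClosure K) (algebraMap k K z) :=
    fun z => IsScalarTower.algebraMap_apply k K (AlgebraicClosure K) z
  have hτ : ∀ (τ : Gal K) (z : K), τ (algebraMap K (AlgebraicClosure K) z) = algebraMap K (AlgebraicClosure K) z :=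
    fun τ z => τ.commutes z
  obtain ⟨A, hA⟩ : ∃ A, A = ι α := ⟨_, rfl⟩
  have hA0 : A ≠ 0 := by
    rw [hA]
    exact (map_ne_zero ι).2 h0
  have hA2 : A ^ 2 = algebraMap K (AlgebraicClosure K) (algebraMap k K a) := by
    rw [hA, ← map_pow, ha, ι.commutes, htower]
  -- it is enough to find the point `R`
  have main : (∃ R : Pt (EQ D) (AlgebraicClosure K), ∀ τ : Gal K,
      (τ A = A → act (EQ D) (τ.toAlgHom.restrictScalars k) R = R) ∧
      (τ A = -A → act (EQ D) (τ.toAlgHom.restrictScalars k) R = R + TT D k2 hD)) →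
      ∃ P : Pt (EQ D) (AlgebraicClosure K), ∀ (τ : Gal K) (σ : Gal k), (∀ x, τ (ι x) = ι (σ x)) →
        act (EQ D) ι (ff h2 hD α σ) = act (EQ D) (τ.toAlgHom.restrictScalars k) P - P := by
    rintro ⟨R, hR⟩
    refine ⟨R, fun τ σ h => ?_⟩
    obtain ⟨r1, r2⟩ := hR τ
    rcases hα σ with hs | hs
    · rw [ff_pos hs, map_zero, r1, sub_self]
      rw [hA, h, hs]
    · have h3 : ¬ σ α = α := by
        rw [hs]
        exact neg_ne h2 h0
      rw [ff_neg h3, act_TT ι h2 k2 hD, r2]
      · abel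
      · rw [hA, h, hs, map_neg]
  apply main
  set d := algebraMap k (AlgebraicClosure K) D with hd
  have hd0 : d ≠ 0 := (map_ne_zero _).2 hD
  set I := algebraMap k (AlgebraicClosure K) i with hI
  have hI2 : I ^ 2 = -1 := by rw [hI, ← map_pow, hi, map_neg, map_one]
  have hτI : ∀ τ : Gal K, τ I = I := by
    intro τ
    rw [hI, htower, hτ]
  have hI0 : I ≠ 0 := by
    intro h
    rw [h] at hI2
    have h3 : (1 : AlgebraicClosure K) = 0 := by linear_combination hI2
    exact one_ne_zero h3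
  obtain ⟨-, hc⟩ := hP
  rcases hc with ⟨-, s, hs⟩ | ⟨-, s, hs⟩ | ⟨X, Y, hXY, s, -, hX0, hs0, hs⟩
  · -- `a` is a square
    have h3 : ∀ τ : Gal K, τ A = A := by
      intro τ
      have h4 : (A - algebraMap K (AlgebraicClosure K) s) * (A + algebraMap K (AlgebraicClosure K) s) = 0 := by
        have h5 : algebraMap K (AlgebraicClosure K) (algebraMap k K a) = algebraMap K (AlgebraicClosure K) s ^ 2 := by
          rw [hs, map_pow]
        linear_combination hA2 + h5
      rcases mul_eq_zero.1 h4 with h5 | h5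
      · have h6 : A = algebraMap K (AlgebraicClosure K) s := by linear_combination h5
        rw [h6, hτ]
      · have h6 : A = -algebraMap K (AlgebraicClosure K) s := by linear_combination h5
        rw [h6, map_neg, hτ]
    refine ⟨0, fun τ => ⟨fun _ => map_zero _, fun h => ?_⟩⟩
    exfalso
    rw [h3 τ] at h
    have h5 : 2 * A = 0 := by linear_combination h
    rcases mul_eq_zero.1 h5 with h6 | h6
    · exact k2 h6
    · exact hA0 h6
  · -- `a D` is a square
    set S := algebraMap K (AlgebraicClosure K) s with hS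
    have hS2 : S ^ 2 = A ^ 2 * d := by
      rw [hS, ← map_pow, ← hs, map_mul, ← hA2, hd, htower]
    have hS0 : S ≠ 0 := by
      intro h
      rw [h, zero_pow two_ne_zero] at hS2
      exact mul_ne_zero (pow_ne_zero 2 hA0) hd0 hS2.symm
    have hx2 : (I * S / A) ^ 2 = -d := by
      rw [div_pow, mul_pow, hI2, hS2]
      field_simp
    have hx0 : I * S / A ≠ 0 := div_ne_zero (mul_ne_zero hI0 hS0) hA0
    have hcur : (0 : AlgebraicClosure K) ^ 2 = (I * S / A) ^ 3 + d * (I * S / A) := by
      linear_combination -(I * S / A) * hx2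
    have hcur' : (0 : AlgebraicClosure K) ^ 2 = (-(I * S / A)) ^ 3 + d * (-(I * S / A)) := by
      linear_combination (I * S / A) * hx2
    refine ⟨mkP k2 hD (I * S / A) 0 hcur, fun τ => ⟨fun h => ?_, fun h => ?_⟩⟩
    · obtain ⟨h', e⟩ := act_mk (τ.toAlgHom.restrictScalars k) k2 k2 hD hcur
      rw [e]
      refine mkP_cg ?_ (map_zero _)
      show τ (I * S / A) = _
      rw [map_div₀, map_mul, hτI, hτ, h]
    · obtain ⟨h', e⟩ := act_mk (τ.toAlgHom.restrictScalars k) k2 k2 hD hcur
      rw [e, add_T k2 hD hcur hx0 hcur' (by linear_combination -hx2) (by ring)]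
      refine mkP_cg ?_ (map_zero _)
      show τ (I * S / A) = _
      rw [map_div₀, map_mul, hτI, hτ, h]
      ring
  · -- the general case
    set S := algebraMap K (AlgebraicClosure K) s with hS
    have hS0 : S ≠ 0 := (map_ne_zero _).2 hs0
    set X' := algebraMap K (AlgebraicClosure K) X with hX'
    set Y' := algebraMap K (AlgebraicClosure K) Y with hY'
    have hXA : (A / S) ^ 2 = X' := by
      rw [div_pow, hA2, hs, map_mul, map_pow, ← hS, ← hX', mul_div_assoc, div_self (pow_ne_zero 2 hS0), mul_one]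
    have hXY' : Y ^ 2 = X ^ 3 + algebraMap k K D * X :=
      (nons_iff (two_ne_zero : (2 : K) ≠ 0) hD X Y).1 hXY
    have hl0 : A / S ≠ 0 := div_ne_zero hA0 hS0
    have hcur0 : Y' ^ 2 = ((A / S) ^ 2) ^ 3 + d * (A / S) ^ 2 := by
      rw [hXA, hY', hX', ← map_pow, hXY', map_add, map_pow, map_mul, ← htower]
    obtain ⟨p1, p2⟩ := pre (I := I) (d := d) hI2 hl0 hcur0
    have hcurn : Y' ^ 2 = ((-(A / S)) ^ 2) ^ 3 + d * (-(A / S)) ^ 2 := by
      rw [neg_sq]
      exact hcur0
    obtain ⟨q1, q2⟩ := pre (I := I) (d := d) hI2 (neg_ne_zero.2 hl0) hcurn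
    rw [neg_sq, div_neg, ← sub_eq_add_neg] at q2
    have hx0 : I * ((A / S) ^ 2 + Y' / (A / S)) ≠ 0 := by
      intro h
      rw [h, zero_mul] at p1
      exact hd0 p1.symm
    refine ⟨mkP k2 hD _ _ p2, fun τ => ⟨fun h => ?_, fun h => ?_⟩⟩
    · obtain ⟨h', e⟩ := act_mk (τ.toAlgHom.restrictScalars k) k2 k2 hD p2
      rw [e]
      refine mkP_cg ?_ ?_
      · show τ (I * ((A / S) ^ 2 + Y' / (A / S))) = _
        simp only [map_mul, map_add, map_pow, map_div₀, hτI, hτ, h, hS, hY']
      · show τ ((1 + I) * (A / S) * (I * ((A / S) ^ 2 + Y' / (A / S)))) = _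
        simp only [map_mul, map_add, map_pow, map_div₀, map_one, hτI, hτ, h, hS, hY']
    · obtain ⟨h', e⟩ := act_mk (τ.toAlgHom.restrictScalars k) k2 k2 hD p2
      rw [e, add_T k2 hD p2 hx0 q2 (by linear_combination p1)
        (by linear_combination (-(1 + I) * (A / S) * (I * ((A / S) ^ 2 + Y' / (A / S)))) * p1)]
      refine mkP_cg ?_ ?_
      · show τ (I * ((A / S) ^ 2 + Y' / (A / S))) = _
        simp only [map_mul, map_add, map_pow, map_div₀, hτI, hτ, h, hS, hY']
        ring
      · show τ ((1 + I) * (A / S) * (I * ((A / S) ^ 2 + Y' / (A / S)))) = _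
        simp only [map_mul, map_add, map_pow, map_div₀, map_one, hτI, hτ, h, hS, hY']
        ring

end gen

section cob

variable {F : Type} [Field F] [CharZero F] {D : F}

theorem cob_cls {i a : F} (hi : i ^ 2 = -1) {hD : D ≠ 0} (ha0 : a ≠ 0) {α : AlgebraicClosure F} (h0 : α ≠ 0)
    (hα : ∀ σ : Gal F, σ α = α ∨ σ α = -α) (ha : α ^ 2 = algebraMap F (AlgebraicClosure F) a)
    {h2 : (2 : AlgebraicClosure F) ≠ 0} (hf : IsCob (EQ D) (ff h2 hD α)) : ∃ P : Pt (EQ D) F, CQ D F P a := by
  obtain ⟨R, hR⟩ := hf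
  set d := algebraMap F (AlgebraicClosure F) D with hd
  have hd0 : d ≠ 0 := (map_ne_zero _).2 hD
  set I := algebraMap F (AlgebraicClosure F) i with hI
  have hI2 : I ^ 2 = -1 := by rw [hI, ← map_pow, hi, map_neg, map_one]
  have hσI : ∀ σ : Gal F, σ I = I := fun σ => σ.commutes i
  have hσd : ∀ σ : Gal F, σ d = d := fun σ => σ.commutes D
  have hI0 : I ≠ 0 := by
    intro h
    rw [h] at hI2
    have h3 : (1 : AlgebraicClosure F) = 0 := by linear_combination hI2
    exact one_ne_zero h3
  have hI1 : 1 + I ≠ 0 := by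
    intro h
    apply h2
    linear_combination (1 - I) * h + hI2
  have hrat : ∀ z : AlgebraicClosure F, (∀ σ : Gal F, σ z = z) → ∃ s : F, algebraMap F (AlgebraicClosure F) s = z := by
    intro z hz
    have h3 : z ∈ Set.range (algebraMap F (AlgebraicClosure F)) := by
      rw [InfiniteGalois.mem_range_algebraMap_iff_fixed]
      exact hz
    exact h3
  have triv : (∀ σ : Gal F, σ α = α) → ∃ P : Pt (EQ D) F, CQ D F P a := by
    intro h
    obtain ⟨s, hs⟩ := hrat α h
    refine ⟨0, ha0, Or.inl ⟨rfl, s, ?_⟩⟩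
    apply (algebraMap F (AlgebraicClosure F)).injective
    rw [map_pow, hs, ha]
  have hfx : (∀ σ : Gal F, ff h2 hD α σ = 0) → ∀ σ : Gal F, σ α = α := by
    intro h σ
    by_contra h3
    have h4 := h σ
    rw [ff_neg h3] at h4
    exact T_ne h2 hD h4
  rcases pt_cases h2 hD R with hR0 | ⟨x, y, hxy, hRxy⟩
  · apply triv
    apply hfx
    intro σ
    rw [hR, hR0, map_zero, sub_zero]
  by_cases hx : x = 0
  · have hy : y = 0 := by
      rw [hx] at hxy
      have h3 : y ^ 2 = 0 := by linear_combination hxy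
      exact pow_eq_zero_iff two_ne_zero |>.1 h3
    have hRT : R = TT D h2 hD := by
      rw [hRxy]
      exact mkP_cg hx hy
    apply triv
    apply hfx
    intro σ
    rw [hR, hRT, act_TT σ.toAlgHom h2 h2 hD, sub_self]
  have hact : ∀ σ : Gal F, (σ α = α → σ x = x ∧ σ y = y) ∧
      (σ α = -α → σ x = d / x ∧ σ y = -d * y / x ^ 2) := by
    intro σ
    obtain ⟨h', e⟩ := act_mk σ.toAlgHom h2 h2 hD hxy
    have h3 := hR σ
    rw [hRxy] at h3
    refine ⟨fun h => ?_, fun h => ?_⟩
    · rw [ff_pos h] at h3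
      have h4 := sub_eq_zero.1 h3.symm
      rw [e] at h4
      exact mkP_inj h4
    · rw [ff_neg (by rw [h]; exact neg_ne h2 h0)] at h3
      have h4 : act (EQ D) σ.toAlgHom (mkP h2 hD x y hxy) = mkP h2 hD x y hxy + TT D h2 hD := by
        rw [h3]
        abel
      have hc : (-d * y / x ^ 2) ^ 2 = (d / x) ^ 3 + d * (d / x) := by
        field_simp
        linear_combination hxy
      rw [e, add_T h2 hD hxy hx hc (div_mul_cancel₀ d hx) (div_mul_cancel₀ _ (pow_ne_zero 2 hx))] at h4
      exact mkP_inj h4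
  by_cases hy : y = 0
  · -- `x² = - D`
    have hx2 : x ^ 2 = -d := by
      apply mul_right_cancel₀ hx
      rw [hy] at hxy
      linear_combination -hxy
    obtain ⟨c, hc⟩ := hrat (x / α) (by
      intro σ
      rcases hα σ with hs | hs
      · rw [map_div₀, hs, ((hact σ).1 hs).1]
      · rw [map_div₀, hs, ((hact σ).2 hs).1]
        field_simp
        linear_combination -hx2)
    have hcx : x = algebraMap F (AlgebraicClosure F) c * α := by
      rw [hc]
      field_simp
    have hc0 : c ≠ 0 := by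
      rintro rfl
      rw [map_zero, zero_mul] at hcx
      exact hx hcx
    have hca : c ^ 2 * a = -D := by
      apply (algebraMap F (AlgebraicClosure F)).injective
      rw [map_mul, map_pow, map_neg, ← ha, ← mul_pow, ← hcx, hx2]
    have hF2 : (2 : F) ≠ 0 := two_ne_zero
    refine ⟨TT D hF2 hD, ha0, Or.inr (Or.inl ⟨⟨_, rfl⟩, i * D / c, ?_⟩)⟩
    show a * D = (i * D / c) ^ 2
    rw [div_pow, mul_pow, hi, eq_div_iff (pow_ne_zero 2 hc0)]
    linear_combination D * hca
  · -- the general case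
    obtain ⟨β, hβ⟩ : ∃ β, β = y / ((1 + I) * x) := ⟨_, rfl⟩
    have hβ0 : β ≠ 0 := by
      rw [hβ]
      exact div_ne_zero hy (mul_ne_zero hI1 hx)
    have hyβ : y = (1 + I) * β * x := by
      rw [hβ]
      field_simp
    have hq : x ^ 2 + d = 2 * I * β ^ 2 * x := by
      apply mul_right_cancel₀ hx
      have h3 : y ^ 2 = 2 * I * β ^ 2 * x ^ 2 := by
        rw [hyβ]
        linear_combination β ^ 2 * x ^ 2 * hI2
      linear_combination h3 - hxy
    have hσβ : ∀ σ : Gal F, (σ α = α → σ β = β) ∧ (σ α = -α → σ β = -β) := by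
      intro σ
      refine ⟨fun h => ?_, fun h => ?_⟩
      · rw [hβ, map_div₀, map_mul, map_add, map_one, hσI, ((hact σ).1 h).1, ((hact σ).1 h).2]
      · rw [hβ, map_div₀, map_mul, map_add, map_one, hσI, ((hact σ).2 h).1, ((hact σ).2 h).2]
        field_simp
    obtain ⟨u, hu⟩ := hrat (β / α) (by
      intro σ
      rcases hα σ with hs | hs
      · rw [map_div₀, hs, (hσβ σ).1 hs]
      · rw [map_div₀, hs, (hσβ σ).2 hs, neg_div_neg_eq])
    have huβ : β = algebraMap F (AlgebraicClosure F) u * α := by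
      rw [hu]
      field_simp
    have hu0 : u ≠ 0 := by
      rintro rfl
      rw [map_zero, zero_mul] at huβ
      exact hβ0 huβ
    obtain ⟨Y0, hY0⟩ := hrat (β * (-(I * x) - β ^ 2)) (by
      intro σ
      rcases hα σ with hs | hs
      · simp only [map_mul, map_sub, map_neg, map_pow, hσI, (hσβ σ).1 hs, ((hact σ).1 hs).1]
      · simp only [map_mul, map_sub, map_neg, map_pow, hσI, (hσβ σ).2 hs, ((hact σ).2 hs).1]
        field_simp
        linear_combination I * hq + 2 * β ^ 2 * x * hI2)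
    have hF2 : (2 : F) ≠ 0 := two_ne_zero
    have hX : algebraMap F (AlgebraicClosure F) (u ^ 2 * a) = β ^ 2 := by
      rw [map_mul, map_pow, ← ha, ← mul_pow, ← huβ]
    have hcur : Y0 ^ 2 = (u ^ 2 * a) ^ 3 + algebraMap F F D * (u ^ 2 * a) := by
      apply (algebraMap F (AlgebraicClosure F)).injective
      show _ = algebraMap F (AlgebraicClosure F) ((u ^ 2 * a) ^ 3 + D * (u ^ 2 * a))
      rw [map_pow, map_add, map_pow, map_mul (algebraMap F (AlgebraicClosure F)) D, hX, hY0, ← hd]
      linear_combination β ^ 2 * (x ^ 2) * hI2 - β ^ 2 * hq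
    refine ⟨mkP hF2 hD _ _ hcur, ha0, Or.inr (Or.inr ⟨u ^ 2 * a, Y0, _, u⁻¹, rfl, mul_ne_zero (pow_ne_zero 2 hu0) ha0,
      inv_ne_zero hu0, ?_⟩)⟩
    field_simp

end cob

/-- a number field containing `i` has no real places -/
theorem isComplex_of_i {F : Type} [Field F] {i : F} (hi : i ^ 2 = -1) (v : InfinitePlace F) : v.IsComplex := by
  rw [← InfinitePlace.not_isReal_iff_isComplex]
  intro hv
  have h1 : (v.embedding_of_isReal hv i) ^ 2 = -1 := by rw [← map_pow, hi, map_neg, map_one]
  nlinarith [sq_nonneg (v.embedding_of_isReal hv i)]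

/-- the complex places -/
theorem loc_inf {K : Type} [Field K] (v : InfinitePlace K) (hc : v.IsComplex) (W : WeierstrassCurve K)
    {f : Coch W} (h1 : f 1 = 0) : LocTriv W v.Completion f := by
  have hac : IsAlgClosed v.Completion :=
    IsAlgClosed.of_ringEquiv ℂ v.Completion
      (InfinitePlace.Completion.ringEquivComplexOfIsComplex hc).symm
  intro ι'
  refine ⟨0, fun τ σ h => ?_⟩
  have h2 : ∀ y, τ y = y := by
    intro y
    obtain ⟨x, rfl⟩ := (IsAlgClosed.algebraMap_bijective_of_isIntegral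
      (k := v.Completion) (K := AlgebraicClosure v.Completion)).2 y
    exact τ.commutes x
  have h3 : σ = 1 := by
    refine AlgEquiv.ext fun x => ι'.injective ?_
    have h4 : ι' (σ x) = ι' x := by rw [← h, h2]
    exact h4
  rw [h3, h1, map_zero, map_zero, sub_zero]

theorem qcoc (hQAP : Pool.Agent.Q283.EN.S_QAP) : Pool.Agent.Q283.EN.S_QCOC := by
  intro F _ _ i D hi hD a ha
  have ha0 : a ≠ 0 := by
    obtain ⟨v⟩ := exists_place F
    exact (ha v).1
  have h2 : (2 : AlgebraicClosure F) ≠ 0 := two_ne_zero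
  obtain ⟨α, hα⟩ := IsAlgClosed.exists_pow_nat_eq (algebraMap F (AlgebraicClosure F) a) (n := 2) (by norm_num)
  have h0 : α ≠ 0 := by
    rintro rfl
    rw [zero_pow two_ne_zero] at hα
    exact ha0 ((map_eq_zero _).1 hα.symm)
  have hsig : ∀ σ : Gal F, σ α = α ∨ σ α = -α := by
    intro σ
    have h3 : (σ α) ^ 2 = α ^ 2 := by
      rw [← map_pow, hα]
      exact σ.commutes a
    exact sq_eq_sq_iff_eq_or_eq_neg.1 h3
  refine ⟨ff h2 hD α, ⟨⟨ff_coc h0 hsig, fun v => ?_, fun v => ?_⟩, fun σ => ?_⟩, cob_cls hi ha0 h0 hsig hα⟩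
  · have : CharZero (v.adicCompletion F) := charZero_of_injective_algebraMap (algebraMap F _).injective
    obtain ⟨P, hP⟩ := (hQAP F v D a hD ha0).1 (ha v)
    exact ff_loc hi h0 hsig hα (v.adicCompletion F) P hP
  · exact loc_inf v (isComplex_of_i hi v) _ (ff_pos rfl)
  · by_cases h : σ α = α
    · exact Or.inl (ff_pos h)
    · exact Or.inr ⟨_, ff_neg h⟩

end Pool.Agent.Q26.EN
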