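import Pool.Agent.Q270.EN.Stm
import Pool.Agent.Q163.RP.Turan

/-!
# Project EN (helper270): jobs TEL, ABEL, CNT
-/

set_option autoImplicit false

namespace Pool.Agent.Q26.EN

open Finset Filter Topology MeasureTheory
open Pool.Agent.Q270.EN

theorem ent_empty (Ω : Type) [MeasurableSpace Ω] (μ : Measure Ω) [IsProbabilityMeasure μ]
    (e : ℕ → Ω → ℝ) : ent μ e ∅ = 0 := by
  unfold ent
  rw [powerset_empty, sum_singleton]
  have h : {ω | neg e ∅ ω = ∅} = Set.univ := by
    ext ω
    simp [neg]
  rw [h, probReal_univ, Real.negMulLog_one]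

theorem t_TEL : S_TEL := by
  classical
  intro Ω _ μ _ e _ S t
  have key : ∀ t : ℕ, ∑ p ∈ S.filter (· < t), dd μ e S p = defic μ e (S.filter (· < t)) := by
    intro t
    induction t with
    | zero =>
      have h : S.filter (· < 0) = ∅ := by
        rw [Finset.filter_eq_empty_iff]
        intro p _ hp
        exact absurd hp (Nat.not_lt_zero p)
      rw [h, sum_empty]
      unfold defic
      rw [ent_empty, card_empty]
      simp
    | succ t ih =>
      by_cases ht : t ∈ S
      · have h1 : S.filter (· < t + 1) = insert t (S.filter (· < t)) := by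
          ext p
          rw [mem_insert, mem_filter, mem_filter]
          constructor
          · rintro ⟨hp, hlt⟩
            by_cases hpt : p = t
            · exact Or.inl hpt
            · exact Or.inr ⟨hp, by omega⟩
          · rintro (rfl | ⟨hp, hlt⟩)
            · exact ⟨ht, by omega⟩
            · exact ⟨hp, by omega⟩
        have h2 : t ∉ S.filter (· < t) := by
          rw [mem_filter]
          rintro ⟨-, h⟩
          exact lt_irrefl t h
        have h3 : S.filter (· ≤ t) = S.filter (· < t + 1) := by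
          ext p
          rw [mem_filter, mem_filter]
          constructor
          · rintro ⟨hp, h⟩
            exact ⟨hp, by omega⟩
          · rintro ⟨hp, h⟩
            exact ⟨hp, by omega⟩
        rw [h1, sum_insert h2, ih]
        unfold defic dd
        rw [h3, h1, card_insert_of_notMem h2]
        push_cast
        ring
      · have h1 : S.filter (· < t + 1) = S.filter (· < t) := by
          ext p
          rw [mem_filter, mem_filter]
          constructor
          · rintro ⟨hp, hlt⟩
            refine ⟨hp, ?_⟩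
            have : p ≠ t := by
              rintro rfl
              exact ht hp
            omega
          · rintro ⟨hp, hlt⟩
            exact ⟨hp, by omega⟩
        rw [h1, ih]
  have h3 : S.filter (· ≤ t) = S.filter (· < t + 1) := by
    ext p
    rw [mem_filter, mem_filter]
    constructor
    · rintro ⟨hp, h⟩
      exact ⟨hp, by omega⟩
    · rintro ⟨hp, h⟩
      exact ⟨hp, by omega⟩
  rw [h3]
  exact key (t + 1)

theorem t_ABEL : S_ABEL := by
  classical
  intro P D ρ y z hD hρ hyz hle
  let J : ℕ → ℝ := fun p => if p.Prime ∧ p ∈ P then 1 else 0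
  have hJ0 : ∀ p, 0 ≤ J p := fun p => by
    simp only [J]
    split_ifs <;> norm_num
  have hJ1 : ∀ p, J p ≤ 1 := fun p => by
    simp only [J]
    split_ifs <;> norm_num
  have hpr : ∀ (g : ℕ → ℝ) (t : ℕ), ∑ p ∈ pr P t, g p = ∑ p ∈ Icc 1 t, J p * g p := by
    intro g t
    unfold pr
    rw [sum_filter]
    refine sum_congr rfl fun p _ => ?_
    simp only [J]
    split_ifs <;> simp
  have hprf : ∀ (g : ℕ → ℝ) (t : ℕ), ∑ p ∈ (pr P t).filter (y < ·), g p =
      ∑ p ∈ Icc 1 t, J p * (if y < p then g p else 0) := by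
    intro g t
    rw [sum_filter, hpr]
  -- partial sums
  let B : ℕ → ℝ := fun t => ∑ p ∈ Icc 1 t, J p * (D p - ρ)
  let S : ℕ → ℝ := fun t => ∑ p ∈ Icc 1 t, J p * (if y < p then (D p - ρ) / p else 0)
  have hB : ∀ t, y ≤ t → t ≤ z → B t ≤ 0 := by
    intro t h1 h2
    have h3 := hle t h1 h2
    have h4 : ((pr P t).card : ℝ) = ∑ p ∈ Icc 1 t, J p * 1 := by
      rw [← hpr]
      simp
    rw [hpr, h4] at h3
    have h5 : B t = ∑ p ∈ Icc 1 t, J p * D p - ρ * ∑ p ∈ Icc 1 t, J p * 1 := by
      simp only [B]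
      rw [mul_sum, ← sum_sub_distrib]
      exact sum_congr rfl fun p _ => by ring
    rw [h5]
    linarith
  have hBy : -(ρ * y) ≤ B y := by
    have h1 : ∑ p ∈ Icc 1 y, (-ρ) ≤ B y := by
      refine sum_le_sum fun p _ => ?_
      have h2 : J p * (D p - ρ) = J p * D p - J p * ρ := by ring
      rw [h2]
      have h3 : 0 ≤ J p * D p := mul_nonneg (hJ0 p) (hD p)
      have h4 : J p * ρ ≤ 1 * ρ := mul_le_mul_of_nonneg_right (hJ1 p) hρ
      linarith
    rw [sum_const, Nat.card_Icc, nsmul_eq_mul] at h1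
    have h5 : ((y + 1 - 1 : ℕ) : ℝ) = y := by simp
    rw [h5] at h1
    linarith
  have hSy : ∀ t, t ≤ y → S t = 0 := by
    intro t ht
    simp only [S]
    refine sum_eq_zero fun p hp => ?_
    rw [mem_Icc] at hp
    rw [if_neg (by omega), mul_zero]
  have hinv : ∀ t, y ≤ t → t ≤ z → S t - B t / (t + 1) ≤ ρ := by
    intro t h1
    induction t, h1 using Nat.le_induction with
    | base =>
      intro _
      rw [hSy y le_rfl, zero_sub, neg_le, le_div_iff₀ (by positivity)]
      have : (0 : ℝ) ≤ ρ := hρ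
      nlinarith
    | succ t h1 ih =>
      intro h2
      have h3 := ih (by omega)
      have h4 := hB (t + 1) (by omega) h2
      have e1 : B (t + 1) = B t + J (t + 1) * (D (t + 1) - ρ) := by
        simp only [B]
        rw [Finset.sum_Icc_succ_top (by omega)]
      have e2 : S (t + 1) = S t + J (t + 1) * ((D (t + 1) - ρ) / ((t + 1 : ℕ) : ℝ)) := by
        simp only [S]
        rw [Finset.sum_Icc_succ_top (by omega), if_pos (by omega)]
      have e3 : S (t + 1) = S t + (B (t + 1) - B t) / ((t : ℝ) + 1) := by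
        rw [e2, e1]
        push_cast
        ring
      rw [e3]
      push_cast
      have e4 : S t + (B (t + 1) - B t) / ((t : ℝ) + 1) - B (t + 1) / ((t : ℝ) + 1 + 1) =
          (S t - B t / ((t : ℝ) + 1)) + B (t + 1) * (1 / ((t : ℝ) + 1) - 1 / ((t : ℝ) + 1 + 1)) := by
        ring
      rw [e4]
      have h5 : 0 ≤ 1 / ((t : ℝ) + 1) - 1 / ((t : ℝ) + 1 + 1) := by
        rw [sub_nonneg]
        exact one_div_le_one_div_of_le (by positivity) (by linarith)
      have h6 : B (t + 1) * (1 / ((t : ℝ) + 1) - 1 / ((t : ℝ) + 1 + 1)) ≤ 0 :=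
        mul_nonpos_of_nonpos_of_nonneg h4 h5
      linarith
  have hSz : S z ≤ ρ := by
    have h1 := hinv z hyz le_rfl
    have h2 := hB z hyz le_rfl
    have h3 : B z / ((z : ℝ) + 1) ≤ 0 := div_nonpos_of_nonpos_of_nonneg h2 (by positivity)
    linarith
  obtain ⟨L, hL⟩ : ∃ L : ℝ, L = ∑ p ∈ (pr P z).filter (y < ·), 1 / (p : ℝ) := ⟨_, rfl⟩
  have hL0 : 0 ≤ L := by
    rw [hL]
    exact sum_nonneg fun p _ => by positivity
  have hsum : ∑ p ∈ (pr P z).filter (y < ·), 2 * D p / (p : ℝ) ≤ 2 * ρ * (L + 1) := by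
    have h1 : ∑ p ∈ (pr P z).filter (y < ·), D p / (p : ℝ) = S z + ρ * L := by
      rw [hL, hprf, hprf]
      simp only [S]
      rw [mul_sum, ← sum_add_distrib]
      refine sum_congr rfl fun p _ => ?_
      split_ifs
      · ring
      · ring
    have h2 : ∑ p ∈ (pr P z).filter (y < ·), 2 * D p / (p : ℝ) =
        2 * ∑ p ∈ (pr P z).filter (y < ·), D p / (p : ℝ) := by
      rw [mul_sum]
      exact sum_congr rfl fun p _ => by ring
    rw [h2, h1]
    linarith
  rw [← hL]
  calc ∑ p ∈ (pr P z).filter (y < ·), 1 / (p : ℝ) * Real.sqrt (2 * D p)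
      = ∑ p ∈ (pr P z).filter (y < ·), Real.sqrt (1 / (p : ℝ)) * Real.sqrt (2 * D p / (p : ℝ)) := by
        refine sum_congr rfl fun p _ => ?_
        have h1 : (0 : ℝ) ≤ 1 / (p : ℝ) := by positivity
        have h2 : 2 * D p / (p : ℝ) = 1 / (p : ℝ) * (2 * D p) := by ring
        rw [h2, Real.sqrt_mul h1, ← mul_assoc, Real.mul_self_sqrt h1]
    _ ≤ Real.sqrt (∑ p ∈ (pr P z).filter (y < ·), 1 / (p : ℝ)) *
          Real.sqrt (∑ p ∈ (pr P z).filter (y < ·), 2 * D p / (p : ℝ)) :=
        Real.sum_sqrt_mul_sqrt_le _ (fun p => by positivity)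
          (fun p => div_nonneg (mul_nonneg (by norm_num) (hD p)) (by positivity))
    _ ≤ Real.sqrt (L + 1) * Real.sqrt (2 * ρ * (L + 1)) := by
        rw [← hL]
        exact mul_le_mul (Real.sqrt_le_sqrt (by linarith)) (Real.sqrt_le_sqrt hsum)
          (Real.sqrt_nonneg _) (Real.sqrt_nonneg _)
    _ = Real.sqrt (2 * ρ) * (1 + L) := by
        rw [Real.sqrt_mul (by positivity)]
        have h1 : Real.sqrt (L + 1) * Real.sqrt (L + 1) = L + 1 := Real.mul_self_sqrt (by linarith)
        calc Real.sqrt (L + 1) * (Real.sqrt (2 * ρ) * Real.sqrt (L + 1))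
            = Real.sqrt (2 * ρ) * (Real.sqrt (L + 1) * Real.sqrt (L + 1)) := by ring
          _ = Real.sqrt (2 * ρ) * (1 + L) := by rw [h1]; ring

theorem t_CNT : S_CNT := by
  classical
  intro P T N y z X hT hTy hy hzX L hL hL1
  obtain ⟨h₀, hh₀⟩ := hT
  let B : Finset ℕ := (pr P z).filter (y < ·)
  have hBmem : ∀ p ∈ B, p ∈ Icc 1 z ∧ p.Prime ∧ p ∈ P ∧ y < p := by
    intro p hp
    have h1 := Finset.mem_filter.1 hp
    have h2 : p ∈ (Icc 1 z).filter fun p => p.Prime ∧ p ∈ P := by
      have h3 := h1.1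
      unfold pr at h3
      convert h3
    have h3 := Finset.mem_filter.1 h2
    exact ⟨h3.1, h3.2.1, h3.2.2, h1.2⟩
  have hprmem : ∀ (t p : ℕ), p ∈ Icc 1 t → p.Prime → p ∈ P → p ∈ pr P t := by
    intro t p h1 h2 h3
    unfold pr
    rw [Finset.mem_filter]
    exact ⟨h1, h2, h3⟩
  have h := Pool.Agent.Q163.RP.count_even N z 1 h₀ B (fun p hp => (hBmem p hp).2.1)
    (fun p hp => (hBmem p hp).1)
    (fun p hp h1 => (hBmem p hp).2.1.one_lt.ne' (Nat.dvd_one.1 h1)) (y : ℝ)
    (by exact_mod_cast (by omega : 0 < y))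
    (fun p hp => by exact_mod_cast (hBmem p hp).2.2.2.le) L hL hL1
    (fun n => ∏ h ∈ T, (n + h)) (by
      intro n hn
      rw [mem_Icc] at hn
      refine ⟨∏ h ∈ T.erase h₀, (n + h), ?_, ?_, ?_⟩
      · rw [one_mul, Finset.mul_prod_erase T (fun h => n + h) hh₀]
      · rw [Finset.prod_ne_zero_iff]
        intro h _
        omega
      · intro p hp hdv hr
        have hpp := (hBmem p hp).2.1
        obtain ⟨h, hhT, hph⟩ := (hpp.prime.dvd_finsetProd_iff _).1 hr
        rw [Finset.mem_erase] at hhT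
        rw [one_mul] at hdv
        have hy1 := Finset.mem_range.1 (hTy hh₀)
        have hy2 := Finset.mem_range.1 (hTy hhT.2)
        have hyp := (hBmem p hp).2.2.2
        rcases lt_or_gt_of_ne hhT.1 with hlt | hlt
        · have h1 := Nat.dvd_sub hdv hph
          have h2 : n + h₀ - (n + h) = h₀ - h := by omega
          rw [h2] at h1
          have h3 := Nat.le_of_dvd (by omega) h1
          omega
        · have h1 := Nat.dvd_sub hph hdv
          have h2 : n + h - (n + h₀) = h - h₀ := by omega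
          rw [h2] at h1
          have h3 := Nat.le_of_dvd (by omega) h1
          omega)
  refine le_trans ?_ h
  have hsub : ((Icc 1 N).filter fun n : ℕ => ∀ p ∈ pr P X, y < p →
      Even ((∏ h ∈ T, (n + h)).factorization p)) ⊆
      (Icc 1 N).filter fun n : ℕ => ∀ p ∈ B, Even ((∏ h ∈ T, (n + h)).factorization p) := by
    intro n hn
    rw [Finset.mem_filter] at hn ⊢
    refine ⟨hn.1, fun p hp => ?_⟩
    obtain ⟨h1, h2, h3, h4⟩ := hBmem p hp
    rw [mem_Icc] at h1
    exact hn.2 p (hprmem X p (mem_Icc.2 ⟨h1.1, by omega⟩) h2 h3) h4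
  exact_mod_cast Finset.card_le_card hsub

end Pool.Agent.Q26.EN
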